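import Pool.Agent.Q4.SR.End

/-!
# MP_467d59_al: spread-resolutions over `T × Q`

Let `k` be a field, `T` a nonempty (for instance infinite) total order and `Q` a finite poset.
Every finitely presented representation of `T × Q` has a finite spread-resolution, and the
spread-global dimension of `T × Q` is at most `2 (4 |Q| + 1) |Q|`.

`HasRes n M` says that `M` has a spread-resolution of length at most `n`: all terms are finitely
presented finite direct sums of spread representations, all kernels are finitely presented, and
the sequence stays exact under `Hom(k_S, -)` for all spreads `S` (finitely presented or not).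
-/

namespace Pool.Agent.Results.MP_467d59_al.FiniteDimension

universe u

theorem result (k : Type u) [Field k] (T Q : Type u) [LinearOrder T] [Nonempty T]
    [PartialOrder Q] [Finite Q] (M : Q4.SR.PRep k (T × Q)) (hM : Q4.SR.IsFP M) :
    Q4.SR.HasRes (2 * ((4 * Nat.card Q + 1) * Nat.card Q)) M :=
  Q4.SR.main k T Q M hM

end Pool.Agent.Results.MP_467d59_al.FiniteDimension
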